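import Mathlib

set_option autoImplicit false

namespace Pool.Agent.Results.MP_cd51d2_nt.Main

/-- `n` is a pseudoprime to base `a`: a composite `n` with `a ^ (n - 1) ≡ 1 (mod n)`. -/
def IsPsp (a n : ℕ) : Prop := 1 < n ∧ ¬ n.Prime ∧ a ^ (n - 1) ≡ 1 [MOD n]

/-- The three-term arithmetic progressions `n₁ < n₂ < n₃` of pseudoprimes to base `a`. -/
def progressions (a : ℕ) : Set (ℕ × ℕ × ℕ) :=
  {t | t.1 < t.2.1 ∧ t.2.1 < t.2.2 ∧ t.1 + t.2.2 = 2 * t.2.1 ∧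
    IsPsp a t.1 ∧ IsPsp a t.2.1 ∧ IsPsp a t.2.2}

def P15 (x : ℤ) : ℤ := x ^ 8 - x ^ 7 + x ^ 5 - x ^ 4 + x ^ 3 - x + 1
def P24 (x : ℤ) : ℤ := x ^ 8 - x ^ 4 + 1
def P30 (x : ℤ) : ℤ := x ^ 8 + x ^ 7 - x ^ 5 - x ^ 4 - x ^ 3 + x + 1

theorem P15_dvd (x : ℤ) : P15 x ∣ x ^ 15 - 1 :=
  ⟨x ^ 7 + x ^ 6 + x ^ 5 - x ^ 2 - x - 1, by unfold P15; ring⟩
theorem P24_dvd (x : ℤ) : P24 x ∣ x ^ 24 - 1 :=
  ⟨(x ^ 4 + 1) * (x ^ 12 - 1), by unfold P24; ring⟩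
theorem P30_dvd (x : ℤ) : P30 x ∣ x ^ 30 - 1 :=
  ⟨(x ^ 5 + 1) * (x ^ 2 - x + 1) * (x ^ 15 - 1), by unfold P30; ring⟩

theorem P15_sub (x : ℤ) : x * (x ^ 4 - 1) ∣ P15 x - 1 :=
  ⟨x ^ 3 - x ^ 2 + 1, by unfold P15; ring⟩
theorem P24_sub (x : ℤ) : x * (x ^ 4 - 1) ∣ P24 x - 1 :=
  ⟨x ^ 3, by unfold P24; ring⟩
theorem P30_sub (x : ℤ) : x * (x ^ 4 - 1) ∣ P30 x - 1 :=
  ⟨x ^ 3 + x ^ 2 - 1, by unfold P30; ring⟩

theorem P15_seven (y : ℤ) : P15 y ∣ P15 (y ^ 7) :=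
  ⟨y ^ 48 + y ^ 47 + y ^ 46 - y ^ 43 - y ^ 42 - 2 * y ^ 41 - y ^ 40 - y ^ 39 + y ^ 36 + y ^ 35
    + y ^ 34 + y ^ 33 + y ^ 32 + y ^ 31 - y ^ 28 - y ^ 26 - y ^ 24 - y ^ 22 - y ^ 20 + y ^ 17
    + y ^ 16 + y ^ 15 + y ^ 14 + y ^ 13 + y ^ 12 - y ^ 9 - y ^ 8 - 2 * y ^ 7 - y ^ 6 - y ^ 5
    + y ^ 2 + y + 1, by unfold P15; ring⟩
theorem P24_seven (y : ℤ) : P24 y ∣ P24 (y ^ 7) :=
  ⟨y ^ 48 + y ^ 44 - y ^ 36 - y ^ 32 + y ^ 24 - y ^ 16 - y ^ 12 + y ^ 4 + 1,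
    by unfold P24; ring⟩
theorem P30_seven (y : ℤ) : P30 y ∣ P30 (y ^ 7) :=
  ⟨y ^ 48 - y ^ 47 + y ^ 46 + y ^ 43 - y ^ 42 + 2 * y ^ 41 - y ^ 40 + y ^ 39 + y ^ 36 - y ^ 35
    + y ^ 34 - y ^ 33 + y ^ 32 - y ^ 31 - y ^ 28 - y ^ 26 - y ^ 24 - y ^ 22 - y ^ 20 - y ^ 17
    + y ^ 16 - y ^ 15 + y ^ 14 - y ^ 13 + y ^ 12 + y ^ 9 - y ^ 8 + 2 * y ^ 7 - y ^ 6 + y ^ 5
    + y ^ 2 - y + 1, by unfold P30; ring⟩

theorem sq_ge (x : ℤ) (hx : 2 ≤ x) (n : ℕ) : x ^ n * 2 ≤ x ^ (n + 1) := by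
  rw [pow_succ]
  exact mul_le_mul_of_nonneg_left hx (by positivity)

/-- bounds -/
theorem bounds (x : ℤ) (hx : 2 ≤ x) :
    1 < P15 x ∧ P15 x ≤ x ^ 8 ∧ x ^ 7 ≤ P15 x ∧
    1 < P24 x ∧ P24 x ≤ x ^ 8 ∧ x ^ 7 ≤ P24 x ∧
    1 < P30 x ∧ P30 x ≤ x ^ 9 ∧ x ^ 8 ≤ P30 x := by
  have h0 : (1 : ℤ) * 2 ≤ x ^ 1 := by simpa using hx
  have h1 := sq_ge x hx 1
  have h2 := sq_ge x hx 2
  have h3 := sq_ge x hx 3
  have h4 := sq_ge x hx 4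
  have h5 := sq_ge x hx 5
  have h6 := sq_ge x hx 6
  have h7 := sq_ge x hx 7
  have h8 := sq_ge x hx 8
  norm_num at h0 h1 h2 h3 h4 h5 h6 h7 h8
  unfold P15 P24 P30
  refine ⟨?_, ?_, ?_, ?_, ?_, ?_, ?_, ?_, ?_⟩ <;> linarith

theorem isPsp_of (a k e n : ℕ) (x P Q : ℤ) (hn : (n : ℤ) = P) (hx : x = (a : ℤ) ^ k)
    (hdvd : P ∣ x ^ e - 1) (hk : ((e * k : ℕ) : ℤ) ∣ P - 1) (hQ : Q ∣ P) (h1 : 1 < Q)
    (h2 : Q < P) : IsPsp a n := by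
  have hn1 : 1 < n := by
    have : (1 : ℤ) < n := by rw [hn]; linarith
    exact_mod_cast this
  refine ⟨hn1, ?_, ?_⟩
  · obtain ⟨m, hm⟩ := Int.eq_ofNat_of_zero_le (by linarith : 0 ≤ Q)
    apply Nat.not_prime_of_dvd_of_lt (m := m)
    · rw [← hn, hm] at hQ
      exact_mod_cast hQ
    · rw [hm] at h1
      exact_mod_cast h1
    · rw [hm, ← hn] at h2
      exact_mod_cast h2
  · have hk' : (e * k) ∣ n - 1 := by
      have h3 : ((n - 1 : ℕ) : ℤ) = P - 1 := by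
        rw [Nat.cast_sub hn1.le, hn]; norm_num
      rw [← h3] at hk
      exact_mod_cast hk
    obtain ⟨m, hm⟩ := hk'
    rw [hm, pow_mul]
    have hbase : 1 ≡ a ^ (e * k) [MOD n] := by
      rw [Nat.modEq_iff_dvd, hn]
      have e1 : ((a ^ (e * k) : ℕ) : ℤ) = x ^ e := by
        rw [hx]; push_cast; rw [← pow_mul, mul_comm]
      rw [e1]
      exact_mod_cast hdvd
    have := hbase.symm.pow m
    rwa [one_pow] at this

theorem zmod315 : ∀ z : ZMod 315, z ^ 3 * ((z ^ 3) ^ 4 - 1) = 0 := by decide +kernel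

theorem key_dvd (a j : ℕ) (ha : Even a) :
    ((120 * (21 * 2 ^ j) : ℕ) : ℤ) ∣ ((a : ℤ) ^ (21 * 2 ^ j)) * (((a : ℤ) ^ (21 * 2 ^ j)) ^ 4 - 1) := by
  set x : ℤ := (a : ℤ) ^ (21 * 2 ^ j) with hx
  have h2 : ((2 : ℤ) ^ (j + 3)) ∣ x := by
    obtain ⟨b, hb⟩ := ha
    have hab : (a : ℤ) = 2 * b := by rw [hb]; push_cast; ring
    rw [hx, hab, mul_pow]
    apply Dvd.dvd.mul_right
    apply pow_dvd_pow
    have := Nat.lt_two_pow_self (n := j)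
    omega
  have h315 : (315 : ℤ) ∣ x * (x ^ 4 - 1) := by
    have h3 := zmod315 (((a : ℤ) ^ (7 * 2 ^ j) : ℤ) : ZMod 315)
    have e1 : x = ((a : ℤ) ^ (7 * 2 ^ j)) ^ 3 := by
      rw [hx, ← pow_mul]; congr 1; ring
    have h4 : ((x * (x ^ 4 - 1) : ℤ) : ZMod 315) = 0 := by
      rw [e1]; push_cast; push_cast at h3; exact h3
    exact (ZMod.intCast_zmod_eq_zero_iff_dvd _ 315).mp h4
  have hcop : IsCoprime ((2 : ℤ) ^ (j + 3)) 315 := by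
    apply IsCoprime.pow_left
    exact ⟨-157, 1, by norm_num⟩
  have h4 := hcop.mul_dvd (h2.mul_right (x ^ 4 - 1)) h315
  have e2 : ((120 * (21 * 2 ^ j) : ℕ) : ℤ) = 2 ^ (j + 3) * 315 := by
    push_cast; rw [pow_add]; ring
  rw [e2]
  exact h4

theorem psp_all (a j : ℕ) (ha : Even a) (h2 : 2 ≤ a) :
    ∃ n1 n2 n3 : ℕ, (n1, n2, n3) ∈ progressions a ∧ j < n2 := by
  set k : ℕ := 21 * 2 ^ j with hk
  set x : ℤ := (a : ℤ) ^ k with hx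
  set y : ℤ := (a : ℤ) ^ (3 * 2 ^ j) with hy
  have ha2 : (2 : ℤ) ≤ a := by exact_mod_cast h2
  have hxy : x = y ^ 7 := by
    rw [hx, hy, ← pow_mul]; congr 1; rw [hk]; ring
  have hy2 : 2 ≤ y := by
    rw [hy]
    calc (2 : ℤ) ≤ a := ha2
      _ = (a : ℤ) ^ 1 := (pow_one _).symm
      _ ≤ (a : ℤ) ^ (3 * 2 ^ j) := pow_le_pow_right₀ (by linarith) (by
        have : 0 < 2 ^ j := by positivity
        omega)
  have hx2 : 2 ≤ x := by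
    rw [hxy]
    calc (2 : ℤ) ≤ y := hy2
      _ = y ^ 1 := (pow_one _).symm
      _ ≤ y ^ 7 := pow_le_pow_right₀ (by linarith) (by norm_num)
  obtain ⟨a1, a2, a3, b1, b2, b3, c1, c2, c3⟩ := bounds x hx2
  obtain ⟨a1', a2', a3', b1', b2', b3', c1', c2', c3'⟩ := bounds y hy2
  obtain ⟨n1, hn1⟩ := Int.eq_ofNat_of_zero_le (by linarith : 0 ≤ P15 x)
  obtain ⟨n2, hn2⟩ := Int.eq_ofNat_of_zero_le (by linarith : 0 ≤ P24 x)
  obtain ⟨n3, hn3⟩ := Int.eq_ofNat_of_zero_le (by linarith : 0 ≤ P30 x)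
  have hkey := key_dvd a j ha
  rw [← hk, ← hx] at hkey
  have hd : ∀ e : ℕ, e ∣ 120 → ∀ P : ℤ, x * (x ^ 4 - 1) ∣ P - 1 → ((e * k : ℕ) : ℤ) ∣ P - 1 := by
    intro e he P hP
    refine Dvd.dvd.trans ?_ (hkey.trans hP)
    exact_mod_cast Nat.mul_dvd_mul_right he k
  have hp1 : y ^ 8 < x ^ 7 := by
    rw [hxy, ← pow_mul y 7 7]
    exact pow_lt_pow_right₀ (show (1 : ℤ) < y by linarith) (show 8 < 7 * 7 by norm_num)
  have hp2 : y ^ 9 < x ^ 8 := by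
    rw [hxy, ← pow_mul y 7 8]
    exact pow_lt_pow_right₀ (show (1 : ℤ) < y by linarith) (show 9 < 7 * 8 by norm_num)
  refine ⟨n1, n2, n3, ⟨?_, ?_, ?_, ?_, ?_, ?_⟩, ?_⟩
  · show n1 < n2
    have : (n1 : ℤ) < n2 := by
      rw [← hn1, ← hn2]
      have e : P24 x - P15 x = x * (x ^ 2 - 1) ^ 2 * (x ^ 2 + 1) := by unfold P24 P15; ring
      have hpos : 0 < x * (x ^ 2 - 1) ^ 2 * (x ^ 2 + 1) := by
        have : 0 < x ^ 2 - 1 := by nlinarith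
        positivity
      linarith
    exact_mod_cast this
  · show n2 < n3
    have : (n2 : ℤ) < n3 := by
      rw [← hn2, ← hn3]
      have e : P30 x - P24 x = x * (x ^ 2 - 1) ^ 2 * (x ^ 2 + 1) := by unfold P30 P24; ring
      have hpos : 0 < x * (x ^ 2 - 1) ^ 2 * (x ^ 2 + 1) := by
        have : 0 < x ^ 2 - 1 := by nlinarith
        positivity
      linarith
    exact_mod_cast this
  · show n1 + n3 = 2 * n2
    have : (n1 : ℤ) + n3 = 2 * n2 := by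
      rw [← hn1, ← hn2, ← hn3]
      unfold P15 P24 P30; ring
    exact_mod_cast this
  · refine isPsp_of a k 15 n1 x (P15 x) (P15 y) hn1.symm hx (P15_dvd x)
      (hd 15 (by norm_num) _ (P15_sub x)) ?_ a1' (by linarith)
    rw [hxy]; exact P15_seven y
  · refine isPsp_of a k 24 n2 x (P24 x) (P24 y) hn2.symm hx (P24_dvd x)
      (hd 24 (by norm_num) _ (P24_sub x)) ?_ b1' (by linarith)
    rw [hxy]; exact P24_seven y
  · refine isPsp_of a k 30 n3 x (P30 x) (P30 y) hn3.symm hx (P30_dvd x)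
      (hd 30 (by norm_num) _ (P30_sub x)) ?_ c1' (by linarith)
    rw [hxy]; exact P30_seven y
  · have h3 : (j : ℤ) < n2 := by
      rw [← hn2]
      have h4 : (j : ℤ) < x := by
        rw [hx]
        have h5 : (2 : ℤ) ^ j ≤ (a : ℤ) ^ k := by
          calc (2 : ℤ) ^ j ≤ (a : ℤ) ^ j := pow_le_pow_left₀ (by norm_num) ha2 j
            _ ≤ (a : ℤ) ^ k := pow_le_pow_right₀ (by linarith) (by
              have := Nat.lt_two_pow_self (n := j)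
              omega)
        have h6 : (j : ℤ) < 2 ^ j := by exact_mod_cast Nat.lt_two_pow_self (n := j)
        linarith
      have h7 : x ≤ x ^ 7 := by
        calc x = x ^ 1 := (pow_one _).symm
          _ ≤ x ^ 7 := pow_le_pow_right₀ (by linarith) (by norm_num)
      linarith
    exact_mod_cast h3

/-- For every even `a ≥ 2` there are infinitely many three-term arithmetic progressions of
pseudoprimes to base `a`. -/
theorem result : ∀ a : ℕ, Even a → 2 ≤ a → (progressions a).Infinite := by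
  intro a ha h2 hfin
  have himg := hfin.image (fun t : ℕ × ℕ × ℕ => t.2.1)
  obtain ⟨B, hB⟩ := himg.bddAbove
  obtain ⟨n1, n2, n3, hmem, hlt⟩ := psp_all a B ha h2
  have := hB (Set.mem_image_of_mem (fun t : ℕ × ℕ × ℕ => t.2.1) hmem)
  have h3 : n2 ≤ B := this
  omega

end Pool.Agent.Results.MP_cd51d2_nt.Main
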